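import Pool.Agent.Helper83.HL.St

/-! Module J of project HL. -/

set_option autoImplicit false

namespace Pool.Agent.Helper69.HL

open Pool.Agent.Helper83.HL Classical

theorem card_dvd_le (x d : ℕ) : ((((Finset.Icc 1 x).filter (fun n => d ∣ n)).card : ℕ) : ℝ) ≤ x / d := by
  have h : ((Finset.Icc 1 x).filter (fun n => d ∣ n)).card = x / d := by
    have := Nat.card_multiples' x d
    rw [← this]
    rcases Nat.eq_zero_or_pos d with hd | hd
    · subst hd
      congr 1
      ext n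
      simp only [Finset.mem_filter, Finset.mem_Icc, Finset.mem_range, Nat.succ_eq_add_one, zero_dvd_iff]
      omega
    · congr 1
      ext n
      simp only [Finset.mem_filter, Finset.mem_Icc, Finset.mem_range, Nat.succ_eq_add_one]
      constructor
      · rintro ⟨⟨h1, h2⟩, h3⟩; exact ⟨by omega, by omega, h3⟩
      · rintro ⟨h1, h2, h3⟩; exact ⟨⟨by omega, by omega⟩, h3⟩
  rw [h]
  exact Nat.cast_div_le

theorem mJ : StB → StI → StJ := by
  rintro hB ⟨C₁, m₀, hC₁, hI⟩
  refine ⟨C₁ + (max m₀ 3 : ℕ) ^ 2, by positivity, ?_⟩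
  intro x m hx hm
  have hlog : 0 < Real.log x := Real.log_pos (by exact_mod_cast (by omega : 1 < x))
  have hmpos : (0 : ℝ) < m := lt_of_lt_of_le (by positivity) hm
  have hx0 : (0 : ℝ) ≤ x := Nat.cast_nonneg x
  by_cases hcase : m < max m₀ 3
  · have h1 : (((Finset.Icc 1 x).filter (fun n => ¬ ∀ p : ℕ, p.Prime → m < p →
        (IsLeast (hS n) p ↔ IsGreatest (pS n) p))).card : ℝ) ≤ x := by
      have h2 := Finset.card_filter_le (Finset.Icc 1 x) (fun n => ¬ ∀ p : ℕ, p.Prime → m < p →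
        (IsLeast (hS n) p ↔ IsGreatest (pS n) p))
      rw [Nat.card_Icc] at h2
      exact_mod_cast h2.trans (by omega)
    refine h1.trans ?_
    rw [le_div_iff₀ (by positivity)]
    have h3 : (m : ℝ) ^ 2 ≤ ((max m₀ 3 : ℕ) : ℝ) ^ 2 := by
      have : (m : ℝ) ≤ ((max m₀ 3 : ℕ) : ℝ) := by exact_mod_cast hcase.le
      exact pow_le_pow_left₀ hmpos.le this 2
    nlinarith
  · push Not at hcase
    have hm0 : m₀ ≤ m := le_trans (le_max_left _ _) hcase
    have hm3 : 3 ≤ m := le_trans (le_max_right _ _) hcase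
    have hCm : C₁ * Real.log x ^ 2 ≤ m := by
      refine le_trans ?_ hm
      have : (0 : ℝ) ≤ ((max m₀ 3 : ℕ) : ℝ) ^ 2 := by positivity
      nlinarith [sq_nonneg (Real.log x)]
    set S := (Finset.Icc 1 x).filter (fun n => ¬ ∀ p : ℕ, p.Prime → m < p →
      (IsLeast (hS n) p ↔ IsGreatest (pS n) p)) with hS'
    have hq : ∀ n ∈ S, ∃ q : ℕ, Bad q m ∧ Dq q m ∣ n := by
      intro n hn
      rw [hS', Finset.mem_filter, Finset.mem_Icc] at hn
      by_contra hcon
      push Not at hcon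
      exact hn.2 (hB n m hn.1.1 hm3 hcon)
    choose! q hqb hqd using hq
    set T := S.image q with hT
    have hTI : ∑ r ∈ T, 1 / (Dq r m : ℝ) ≤ C₁ / (m : ℝ) ^ 2 := by
      refine hI x m hx hm0 hCm T ?_
      intro r hr
      rw [hT, Finset.mem_image] at hr
      obtain ⟨n, hn, rfl⟩ := hr
      refine ⟨hqb n hn, ?_⟩
      have hn' := hn
      rw [hS', Finset.mem_filter, Finset.mem_Icc] at hn'
      exact (Nat.le_of_dvd (by omega) (hqd n hn)).trans hn'.1.2
    have hsub : S ⊆ T.biUnion (fun r => (Finset.Icc 1 x).filter (fun n => Dq r m ∣ n)) := by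
      intro n hn
      rw [Finset.mem_biUnion]
      refine ⟨q n, Finset.mem_image_of_mem q hn, ?_⟩
      have hn' := hn
      rw [hS', Finset.mem_filter] at hn'
      rw [Finset.mem_filter]
      exact ⟨hn'.1, hqd n hn⟩
    have h1 : (S.card : ℝ) ≤ ∑ r ∈ T, ((x : ℝ) / (Dq r m : ℝ)) := by
      have h2 : S.card ≤ ∑ r ∈ T, ((Finset.Icc 1 x).filter (fun n => Dq r m ∣ n)).card :=
        (Finset.card_le_card hsub).trans Finset.card_biUnion_le
      have h3 : (S.card : ℝ) ≤ ∑ r ∈ T, (((Finset.Icc 1 x).filter (fun n => Dq r m ∣ n)).card : ℝ) := by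
        exact_mod_cast h2
      exact h3.trans (Finset.sum_le_sum fun r _ => card_dvd_le x (Dq r m))
    have h4 : ∑ r ∈ T, ((x : ℝ) / (Dq r m : ℝ)) = x * ∑ r ∈ T, 1 / (Dq r m : ℝ) := by
      rw [Finset.mul_sum]
      exact Finset.sum_congr rfl fun r _ => by ring
    rw [h4] at h1
    refine h1.trans ((mul_le_mul_of_nonneg_left hTI hx0).trans ?_)
    rw [← mul_div_assoc]
    apply div_le_div_of_nonneg_right _ (by positivity)
    have : (0 : ℝ) ≤ ((max m₀ 3 : ℕ) : ℝ) ^ 2 := by positivity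
    nlinarith

end Pool.Agent.Helper69.HL
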